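import Pool.Agent.WAT.Stmts
import Pool.Agent.Helper20_ATZ.ONE

/-!
# Squad WAT, row SMM: the sum of the `mm(z)` over the characters of the block
-/

open scoped BigOperators

noncomputable section

namespace Pool.Agent.PP.TV.H88

open Pool.Agent.Helper51_AWC Pool.Agent.Helper79_WRA Pool.Agent.PP Pool.Agent.PP.KF
open Pool.Agent.PP.K9 Pool.Agent.PP.K9.H97 Pool.Agent.PP.H75 Pool.Agent.PP.T3 Pool.Agent.PP.T2
open Pool.Agent.PP.T5 Pool.Agent.PP.TB

attribute [local instance] Ideal.Quotient.field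

section sums

variable {G : Type} [Group G] [Finite G]

/-- a sum over the regular elements of a subgroup -/
theorem sum_reg (ℓ : ℕ) (C : Subgroup G) (f : G → ℂ) :
    ∑ᶠ (s : G) (_ : s ∈ C ∧ Reg ℓ s), f s = ∑ᶠ (s : C) (_ : Reg ℓ s), f s := by
  classical
  rw [H75.sum_sub C (fun s => ∑ᶠ (_ : s ∈ C ∧ Reg ℓ s), f s)
    (fun x hx => by rw [finsum_eq_if, if_neg (fun h => hx h.1)])]
  refine finsum_congr fun s => ?_
  have h1 : ((s : G) ∈ C ∧ Reg ℓ (s : G)) = Reg ℓ s := by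
    apply propext
    unfold Reg
    rw [Subgroup.orderOf_coe]
    exact ⟨fun h => h.2, fun h => ⟨s.2, h⟩⟩
  exact finsum_congr_Prop h1 fun _ => rfl

omit [Group G] [Finite G] in
theorem fin_reg [Fintype G] (P : G → Prop) [DecidablePred P] (f : G → ℂ) :
    ∑ᶠ (s : G) (_ : P s), f s = ∑ s ∈ Finset.univ.filter P, f s := by
  rw [finsum_eq_sum_of_fintype, Finset.sum_filter]
  refine Finset.sum_congr rfl fun s _ => ?_
  rw [finsum_eq_if]

end sums

theorem el_of {ℓ : ℕ} [Fact ℓ.Prime] {G : Type} [Group G] [Finite G] {F : Type} [Field F]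
    {e : G → F} {V Z : Subgroup G} {γ : G → F} {b : G → G → F} (hZ : Zd ℓ e V Z γ b) {z : G}
    (hz : z ∈ Z) : El ℓ z := by
  obtain ⟨n, hn⟩ := hZ.tp.pg ⟨z, hZ.le hz⟩
  exact ⟨n, congrArg Subtype.val hn⟩

theorem smm (hCo3 : T5.Co3Stmt) (hSmg : T3.SmgStmt) (hLrk : T3.LrkStmt) : SmmStmt := by
  classical
  intro ℓ _ M _ hM G _ _ e V γ b hZ z hz
  have hl := (hZ.lb z hz).1
  have hEl : El ℓ z := el_of hZ hz
  have hix : Ix (Cu z) (b z) := hl.bx.ix
  have hC : (Nat.card (Cu z) : ℂ) ≠ 0 := by exact_mod_cast (Nat.card_pos (α := Cu z)).ne'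
  have := Fintype.ofFinite G
  have hfinG : (Irr G).Finite := irr_finite'
  have hfinE : (IrrE M e).Finite := hfinG.subset fun _ h => h.1
  -- the characters outside of the block
  have hout : ∀ s ∈ Cu z, Reg ℓ s → ∀ χ ∈ Irr G, χ ∉ IrrE M e →
      gv M (Cu z) (z * s) (b z) χ = 0 := by
    intro s hs hr χ hχ hne
    by_cases hz1 : z = 1
    · subst hz1
      have hb : b 1 = e := TB.H20.eq_e hZ.blk hl.bx hl.und
      rw [hb, T6.H16.gv_one e hZ.blk.1.1, one_mul]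
      exact (T6.H16.fv_eh e hχ s).2 hne
    · exact (hSmg ℓ M hM G z s hz1 hEl hs hr (fun t : Cu z => b z t) hix.idem e hZ.blk.1).1
        hl.und χ hχ hne
  have hsum : ∀ s ∈ Cu z, Reg ℓ s →
      ∑ᶠ χ ∈ IrrE M e, gv M (Cu z) (z * s) (b z) χ *
        starRingEnd ℂ (gv M (Cu z) (z * s) (b z) χ) = T5.kr M (Cu z) (b z) s s := by
    intro s hs hr
    rw [← hCo3 ℓ M hM G z hEl (b z) hix s hs hr s hs hr]
    rw [finsum_mem_eq_finite_toFinset_sum _ hfinE, finsum_mem_eq_finite_toFinset_sum _ hfinG]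
    refine Finset.sum_subset ?_ ?_
    · intro χ hχ
      rw [Set.Finite.mem_toFinset] at hχ ⊢
      exact hχ.1
    · intro χ hχ hne
      rw [Set.Finite.mem_toFinset] at hχ hne
      rw [hout s hs hr χ hχ hne, zero_mul]
  have hln := hLrk ℓ M hM (Cu z) (fun t : Cu z => b z t) hix.idem
  rw [hln]
  unfold mm
  rw [finsum_mem_eq_finite_toFinset_sum _ hfinE, ← Finset.mul_sum]
  congr 1
  have hR : ∑ᶠ (s : Cu z) (_ : Reg ℓ s), ∑ᶠ χ ∈ IrrE M (fun t : Cu z => b z t),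
      χ s * starRingEnd ℂ (χ s) =
      ∑ᶠ (s : G) (_ : s ∈ Cu z ∧ Reg ℓ s), T5.kr M (Cu z) (b z) s s := by
    rw [sum_reg ℓ (Cu z) (fun s => T5.kr M (Cu z) (b z) s s)]
    refine finsum_congr fun s => finsum_congr fun _ => ?_
    unfold T5.kr
    refine finsum_congr fun κ => finsum_congr fun _ => ?_
    rw [H75.ext0_apply]
  rw [hR, fin_reg]
  have hL : ∀ χ ∈ hfinE.toFinset, ∑ᶠ (s : G) (_ : s ∈ Cu z ∧ Reg ℓ s),
      gv M (Cu z) (z * s) (b z) χ * starRingEnd ℂ (gv M (Cu z) (z * s) (b z) χ) =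
      ∑ s ∈ Finset.univ.filter (fun s => s ∈ Cu z ∧ Reg ℓ s),
      gv M (Cu z) (z * s) (b z) χ * starRingEnd ℂ (gv M (Cu z) (z * s) (b z) χ) :=
    fun χ _ => fin_reg _ _
  rw [Finset.sum_congr rfl hL, Finset.sum_comm]
  refine Finset.sum_congr rfl fun s hs => ?_
  rw [Finset.mem_filter] at hs
  rw [← hsum s hs.2.1 hs.2.2, finsum_mem_eq_finite_toFinset_sum _ hfinE]

end Pool.Agent.PP.TV.H88
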